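import Mathlib

set_option autoImplicit false

open Set Cardinal Ordinal

universe u

namespace Pool.Agent.Results.MP_b624cf_lc.BoundedOrQuasiMeasurable

/-- `N` is (the predicate of membership in) a sigma-ideal containing all singletons such that every
pairwise disjoint family of sets outside the ideal is countable. -/
structure SatIdeal {Y : Type u} (N : Set Y → Prop) : Prop where
  empty : N ∅
  mono : ∀ A B : Set Y, A ⊆ B → N B → N A
  union : ∀ f : ℕ → Set Y, (∀ n, N (f n)) → N (⋃ n, f n)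
  sing : ∀ y : Y, N {y}
  sat : ∀ D : Set (Set Y), D.PairwiseDisjoint id → (∀ A ∈ D, ¬ N A) → D.Countable

/-- A disjoint family of positive sets indexed by a type is countable. -/
lemma SatIdeal.countable_of_disjoint {Y : Type u} {N : Set Y → Prop} (h : SatIdeal N)
    {α : Type*} (s : Set α) (f : α → Set Y)
    (hd : ∀ a ∈ s, ∀ b ∈ s, a ≠ b → Disjoint (f a) (f b)) (hp : ∀ a ∈ s, ¬ N (f a)) :
    s.Countable := by
  have hne : ∀ a ∈ s, (f a).Nonempty := by
    intro a ha
    by_contra hcon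
    rw [not_nonempty_iff_eq_empty] at hcon
    exact hp a ha (hcon ▸ h.empty)
  have hinj : InjOn f s := by
    intro a ha b hb hab
    by_contra hne'
    have h1 := hd a ha b hb hne'
    rw [hab, disjoint_self, Set.bot_eq_empty] at h1
    exact (hne b hb).ne_empty h1
  have hcount : (f '' s).Countable := by
    apply h.sat
    · rintro _ ⟨a, ha, rfl⟩ _ ⟨b, hb, rfl⟩ hab
      exact hd a ha b hb (fun e => hab (by rw [e]))
    · rintro _ ⟨a, ha, rfl⟩
      exact hp a ha
  exact (Set.countable_of_injective_of_countable_image hinj hcount)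

lemma SatIdeal.union_two {Y : Type u} {N : Set Y → Prop} (h : SatIdeal N) (A B : Set Y)
    (hA : N A) (hB : N B) : N (A ∪ B) := by
  have : A ∪ B = ⋃ n : ℕ, (if n = 0 then A else B) := by
    ext y
    simp only [mem_union, mem_iUnion]
    constructor
    · rintro (h | h)
      · exact ⟨0, by simpa using h⟩
      · exact ⟨1, by simpa using h⟩
    · rintro ⟨n, hn⟩
      split_ifs at hn
      · exact Or.inl hn
      · exact Or.inr hn
  rw [this]
  apply h.union
  intro n
  split_ifs
  · exact hA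
  · exact hB

/-- Ulam matrix argument. -/
theorem ulam {ι M : Type u} [LinearOrder ι] (hM : ℵ₀ ≤ #M) (hι : #M < #ι)
    (hIic : ∀ i : ι, #(Iic i) ≤ #M) (N : Set ι → Prop) (hN : SatIdeal N)
    (hU : ∀ f : M → Set ι, (∀ m, N (f m)) → N (⋃ m, f m)) : N Set.univ := by
  classical
  by_contra hpos
  have hinf : Infinite M := Cardinal.infinite_iff.mpr hM
  have hunc : Uncountable ι := by
    rw [← Cardinal.aleph0_lt_mk_iff]
    exact hM.trans_lt hι
  let e : ∀ b : ι, Iic b ↪ M := fun b => (show Nonempty (Iic b ↪ M) from hIic b).some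
  -- initial segments are null
  have hnull : ∀ i : ι, N (Iic i) := by
    intro i
    have hne : Nonempty (Iic i) := ⟨⟨i, le_refl i⟩⟩
    have h2 : Iic i = ⋃ m : M, {((Function.invFun (e i) m : Iic i) : ι)} := by
      ext j
      simp only [mem_iUnion, mem_singleton_iff]
      constructor
      · intro hj
        exact ⟨e i ⟨j, hj⟩, by rw [Function.leftInverse_invFun (e i).injective]⟩
      · rintro ⟨m, rfl⟩
        exact (Function.invFun (e i) m).2
    rw [h2]
    exact hU _ (fun m => hN.sing _)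
  let U : M → ι → Set ι := fun m a => {b | ∃ h : a ≤ b, e b ⟨a, h⟩ = m}
  have hUm : ∀ a : ι, ∃ m : M, ¬ N (U m a) := by
    intro a
    by_contra hcon
    push Not at hcon
    apply hpos
    have h1 := hU (fun m => U m a) hcon
    have h2 : (Set.univ : Set ι) = (⋃ m, U m a) ∪ Iic a := by
      ext b
      simp only [mem_univ, true_iff, mem_union, mem_iUnion]
      rcases le_total a b with h | h
      · exact Or.inl ⟨e b ⟨a, h⟩, h, rfl⟩
      · exact Or.inr h
    rw [h2]
    exact hN.union_two _ _ h1 (hnull a)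
  choose m hm using hUm
  obtain ⟨m₀, hm₀⟩ := Cardinal.exists_uncountable_fiber m hι
  have hcount := hN.countable_of_disjoint (m ⁻¹' {m₀}) (U m₀) ?_ ?_
  · exact (uncountable_iff_not_countable _).mp hm₀ hcount.to_subtype
  · intro a _ a' _ haa
    rw [Set.disjoint_left]
    rintro b ⟨h1, h2⟩ ⟨h3, h4⟩
    apply haa
    exact congrArg Subtype.val ((e b).injective (h2.trans h4.symm))
  · intro a ha
    have h2 := hm a
    rwa [show m a = m₀ from ha] at h2


/-- The index type `c.ord.ToType` has small initial segments. -/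
lemma mk_Iic_lt {c : Cardinal.{u}} (hc : ℵ₀ ≤ c) (i : c.ord.ToType) : #(Iic i) < c := by
  have h1 : #(Iio i) < c := by
    simpa using mk_Iio_lt i
  have h2 : (Iic i) = insert i (Iio i) := by
    ext j; simp [le_iff_eq_or_lt]
  rw [h2]
  refine (Cardinal.mk_insert_le).trans_lt ?_
  exact Cardinal.add_lt_of_lt hc h1 (Cardinal.one_lt_aleph0.trans_le hc)

/-- The pushforward of a saturated ideal along a cover of a positive set by null sets indexed by
`κ`, where smaller unions of null sets are null. -/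
theorem push {Y : Type u} (N : Set Y → Prop) (hN : SatIdeal N) {ι : Type u} [LinearOrder ι]
    [WellFoundedLT ι] (f : ι → Set Y) (hf : ∀ i, N (f i)) (hpos : ¬ N (⋃ i, f i)) :
    ∃ J : Set ι → Prop, SatIdeal J ∧ ¬ J Set.univ ∧
      ∀ (M : Type u), (∀ g : M → Set Y, (∀ m, N (g m)) → N (⋃ m, g m)) →
        ∀ g : M → Set ι, (∀ m, J (g m)) → J (⋃ m, g m) := by
  -- piece of index `i`
  let p : ι → Set Y := fun i => f i \ ⋃ j : Iio i, f j
  have hpd : ∀ i j, i ≠ j → Disjoint (p i) (p j) := by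
    intro i j hij
    rw [Set.disjoint_left]
    rintro y ⟨h1, h2⟩ ⟨h3, h4⟩
    rcases lt_or_gt_of_ne hij with h | h
    · exact h4 (mem_iUnion.mpr ⟨⟨i, h⟩, h1⟩)
    · exact h2 (mem_iUnion.mpr ⟨⟨j, h⟩, h3⟩)
  have hpu : (⋃ i, p i) = ⋃ i, f i := by
    apply Subset.antisymm
    · exact iUnion_mono fun i => sdiff_subset
    · intro y hy
      obtain ⟨i, hi⟩ := mem_iUnion.mp hy
      have hne : {i | y ∈ f i}.Nonempty := ⟨i, hi⟩
      refine mem_iUnion.mpr ⟨WellFounded.min wellFounded_lt _ hne, ?_, ?_⟩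
      · exact WellFounded.min_mem wellFounded_lt _ hne
      · intro hcon
        obtain ⟨⟨j, hj⟩, hyj⟩ := mem_iUnion.mp hcon
        exact WellFounded.not_lt_min wellFounded_lt {i | y ∈ f i} hyj hj
  refine ⟨fun W => N (⋃ i ∈ W, p i), ⟨?_, ?_, ?_, ?_, ?_⟩, ?_, ?_⟩
  · simpa using hN.empty
  · intro A B hAB hB
    exact hN.mono _ _ (biUnion_subset_biUnion_left hAB) hB
  · intro g hg
    have : (⋃ i ∈ ⋃ n, g n, p i) = ⋃ n, ⋃ i ∈ g n, p i := by
      rw [biUnion_iUnion]
    rw [this]
    exact hN.union _ hg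
  · intro i
    refine hN.mono _ _ ?_ (hf i)
    have h1 : p i ⊆ f i := sdiff_subset
    simpa using h1
  · intro D hD hpD
    refine hN.countable_of_disjoint D (fun W => ⋃ i ∈ W, p i) ?_ hpD
    intro A hA B hB hAB
    have h1 := hD hA hB hAB
    rw [Set.disjoint_left]
    intro y hy hy'
    obtain ⟨i, hi, hyi⟩ := mem_iUnion₂.mp hy
    obtain ⟨j, hj, hyj⟩ := mem_iUnion₂.mp hy'
    by_cases hij : i = j
    · subst hij
      exact Set.disjoint_left.mp h1 hi hj
    · exact Set.disjoint_left.mp (hpd i j hij) hyi hyj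
  · simpa [hpu] using hpos
  · intro M hM g hg
    have : (⋃ i ∈ ⋃ n, g n, p i) = ⋃ n, ⋃ i ∈ g n, p i := by
      rw [biUnion_iUnion]
    rw [this]
    exact hM _ hg

/-- Ulam's theorem: the least number of null sets with non-null union is weakly inaccessible. -/
theorem additivity {Y : Type u} (N : Set Y → Prop) (hN : SatIdeal N) (hY : ¬ N Set.univ) :
    ∃ κ : Cardinal.{u}, ℵ₀ < κ ∧ κ.IsRegular ∧ (∀ μ < κ, Order.succ μ < κ) ∧ κ ≤ #Y ∧
      (∀ (M : Type u) (f : M → Set Y), #M < κ → (∀ m, N (f m)) → N (⋃ m, f m)) ∧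
      (∀ (M : Type u) (f : M → Set Y), (∀ m, N (f m)) → ¬ N (⋃ m, f m) → κ ≤ #M) ∧
      ∃ f : κ.ord.ToType → Set Y, (∀ i, N (f i)) ∧ ¬ N (⋃ i, f i) := by
  classical
  let K : Set Cardinal.{u} := {c | ∃ (ι : Type u) (f : ι → Set Y), #ι = c ∧ (∀ i, N (f i)) ∧
    ¬ N (⋃ i, f i)}
  have hYK : #Y ∈ K := ⟨Y, fun y => {y}, rfl, hN.sing, by
    rwa [iUnion_of_singleton]⟩
  let κ := sInf K
  have hκ : κ ∈ K := csInf_mem ⟨_, hYK⟩
  have hmin : ∀ (M : Type u) (f : M → Set Y), (∀ m, N (f m)) → ¬ N (⋃ m, f m) → κ ≤ #M :=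
    fun M f h1 h2 => csInf_le' ⟨M, f, rfl, h1, h2⟩
  have hcomp : ∀ (M : Type u) (f : M → Set Y), #M < κ → (∀ m, N (f m)) → N (⋃ m, f m) := by
    intro M f h1 h2
    by_contra h3
    exact absurd (hmin M f h2 h3) (not_le.mpr h1)
  obtain ⟨ι, f, hι, hf, hpos⟩ := hκ
  -- reindex by `κ.ord.ToType`
  have he : Nonempty (κ.ord.ToType ≃ ι) := by
    rw [← Cardinal.eq, mk_ord_toType, hι]
  obtain ⟨e⟩ := he
  have hf' : ∀ i, N (f (e i)) := fun i => hf _
  have hpos' : ¬ N (⋃ i, f (e i)) := by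
    rwa [e.surjective.iUnion_comp f]
  have hω : ℵ₀ < κ := by
    by_contra hcon
    rw [not_lt] at hcon
    apply hpos
    have hcount : Countable ι := by
      rw [← Cardinal.mk_le_aleph0_iff, hι]; exact hcon
    rcases isEmpty_or_nonempty ι with hem | hne
    · simpa using hN.empty
    · obtain ⟨g, hg⟩ := exists_surjective_nat ι
      rw [← hg.iUnion_comp f]
      exact hN.union _ (fun n => hf _)
  have hreg : κ.IsRegular := by
    refine ⟨hω.le, ?_⟩
    rw [← cof_toType]
    rw [Order.le_cof_iff]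
    intro s hs
    by_contra hcon
    rw [not_le] at hcon
    apply hpos'
    have h1 : (⋃ i, f (e i)) = ⋃ j : s, ⋃ i : Iic (j : κ.ord.ToType), f (e i) := by
      ext y
      simp only [mem_iUnion]
      constructor
      · rintro ⟨i, hi⟩
        obtain ⟨j, hj, hij⟩ := hs i
        exact ⟨⟨j, hj⟩, ⟨i, hij⟩, hi⟩
      · rintro ⟨j, i, hi⟩
        exact ⟨i, hi⟩
    rw [h1]
    apply hcomp _ _ hcon
    intro j
    exact hcomp _ _ (mk_Iic_lt hω.le _) (fun i => hf _)
  refine ⟨κ, hω, hreg, ?_, csInf_le' hYK, hcomp, hmin, fun i => f (e i), hf', hpos'⟩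
  intro μ hμ
  refine lt_of_le_of_ne (Order.succ_le_of_lt hμ) ?_
  intro hsucc
  -- successor case: Ulam
  have hμ0 : ℵ₀ ≤ μ := by
    by_contra hcon
    rw [not_le] at hcon
    have : Order.succ μ < ℵ₀ := Cardinal.isSuccLimit_aleph0.succ_lt hcon
    rw [hsucc] at this
    exact absurd this (not_lt.mpr hω.le)
  obtain ⟨J, hJ, hJu, hJc⟩ := push N hN (fun i : κ.ord.ToType => f (e i)) hf' hpos'
  apply hJu
  have hM : #μ.out = μ := Cardinal.mk_out μ
  refine ulam (M := μ.out) (by rw [hM]; exact hμ0) (by rw [hM, mk_ord_toType]; exact hμ) ?_ J hJ ?_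
  · intro i
    rw [hM]
    exact Order.lt_succ_iff.mp ((mk_Iic_lt hω.le i).trans_eq hsucc.symm)
  · exact hJc _ (fun g hg => hcomp _ g (by rw [hM]; exact hμ) hg)


/-- `ω₁` as a type. -/
abbrev W : Type := (Cardinal.aleph 1).ord.ToType

lemma W_Iio_countable (i : W) : (Iio i).Countable := by
  have h : #(Iio i) < Cardinal.aleph 1 := by simpa using mk_Iio_lt i
  exact Cardinal.le_aleph0_iff_set_countable.mp (Cardinal.lt_aleph_one_iff.mp h)

lemma W_uncountable : Uncountable W := by
  rw [← Cardinal.aleph0_lt_mk_iff, mk_ord_toType]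
  exact Cardinal.aleph0_lt_aleph_one

/-- A nonatomic saturated ideal: the space is covered by at most continuum many null sets. -/
theorem cover_continuum {Y : Type u} (N : Set Y → Prop) (hN : SatIdeal N)
    (hat : ∀ T : Set Y, ¬ N T → ∃ T' ⊆ T, ¬ N T' ∧ ¬ N (T \ T')) :
    ∃ f : W × Set ℕ → Set Y, (∀ i, N (f i)) ∧ (⋃ i, f i) = Set.univ := by
  classical
  choose! s hs using hat
  let H : Set Y → Y → Set Y := fun T y => if N T then T else if y ∈ s T then s T else T \ s T
  let T : Y → W → Set Y := fun y =>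
    WellFounded.fix (C := fun _ => Set Y) (wellFounded_lt : WellFounded ((· < ·) : W → W → Prop))
      (fun i rec => ⋂ j : Iio i, H (rec j j.2) y)
  have hT : ∀ y i, T y i = ⋂ j : Iio i, H (T y j) y := by
    intro y i
    exact WellFounded.fix_eq _ _ _
  have hHsub : ∀ T y, H T y ⊆ T := by
    intro T y
    simp only [H]
    split_ifs with h1 h2
    · exact Subset.rfl
    · exact (hs T h1).1
    · exact sdiff_subset
  have hHmem : ∀ T y, y ∈ T → y ∈ H T y := by
    intro T y hy
    simp only [H]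
    split_ifs with h1 h2
    · exact hy
    · exact h2
    · exact ⟨hy, h2⟩
  have hTsub : ∀ y i j, j < i → T y i ⊆ H (T y j) y := by
    intro y i j hji
    rw [hT y i]
    exact iInter_subset (fun j : Iio i => H (T y j) y) ⟨j, hji⟩
  have hTmem : ∀ y i, y ∈ T y i := by
    intro y i
    induction i using WellFoundedLT.induction with
    | ind i ih =>
      rw [hT y i, mem_iInter]
      intro j
      exact hHmem _ _ (ih j j.2)
  have hdies : ∀ y, ∃ i, N (T y i) := by
    intro y
    by_contra hcon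
    push Not at hcon
    have hc := hN.countable_of_disjoint (Set.univ : Set W) (fun i => T y i \ H (T y i) y) ?_ ?_
    · exact (uncountable_iff_not_countable _).mp W_uncountable (countable_univ_iff.mp hc)
    · have key : ∀ i j : W, i < j → Disjoint (T y i \ H (T y i) y) (T y j \ H (T y j) y) := by
        intro i j hij
        rw [Set.disjoint_left]
        rintro z ⟨_, h2⟩ ⟨h3, _⟩
        exact h2 (hTsub y j i hij h3)
      intro i _ j _ hij
      rcases lt_or_gt_of_ne hij with h | h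
      · exact key i j h
      · exact (key j i h).symm
    · intro i _
      have h1 := hs _ (hcon i)
      simp only [H]
      rw [if_neg (hcon i)]
      split_ifs with h2
      · exact h1.2.2
      · rw [sdiff_sdiff_right_self]
        rw [inter_eq_right.mpr h1.1]
        exact h1.2.1
  let ix : Y → W := fun y => WellFounded.min wellFounded_lt {i | N (T y i)} (hdies y)
  have hix : ∀ y, N (T y (ix y)) := fun y => WellFounded.min_mem wellFounded_lt _ (hdies y)
  have hixlt : ∀ y j, j < ix y → ¬ N (T y j) := by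
    intro y j hj hN'
    exact WellFounded.not_lt_min wellFounded_lt {i | N (T y i)} hN' hj
  have hen : ∀ i : W, ∃ g : W → ℕ, InjOn g (Iio i) := fun i =>
    Set.countable_iff_exists_injOn.mp (W_Iio_countable i)
  choose g hg using hen
  let code : Y → W × Set ℕ := fun y => (ix y, g (ix y) '' {j | j < ix y ∧ y ∈ s (T y j)})
  have hcode : ∀ y z, code y = code z → ∀ j, j ≤ ix y → T y j = T z j := by
    intro y z hyz
    have h1 : ix y = ix z := congrArg Prod.fst hyz
    have h2 : g (ix y) '' {j | j < ix y ∧ y ∈ s (T y j)} =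
        g (ix y) '' {j | j < ix y ∧ z ∈ s (T z j)} := by
      have := congrArg Prod.snd hyz
      simp only [code] at this
      rw [this, h1]
    have h3 : {j | j < ix y ∧ y ∈ s (T y j)} = {j | j < ix y ∧ z ∈ s (T z j)} := by
      refine (hg (ix y)).image_eq_image_iff ?_ ?_ |>.mp h2
      · intro j hj; exact hj.1
      · intro j hj; exact hj.1
    intro j
    induction j using WellFoundedLT.induction with
    | ind j ih =>
      intro hj
      rw [hT y j, hT z j]
      apply iInter_congr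
      rintro ⟨k, hk⟩
      have hk' : k < j := hk
      have hkT := ih k hk' (hk'.le.trans hj)
      have hkix : k < ix y := hk'.trans_le hj
      have hnull := hixlt y k hkix
      have hiff : y ∈ s (T y k) ↔ z ∈ s (T z k) := by
        have := Set.ext_iff.mp h3 k
        simpa [hkix] using this
      simp only [H]
      rw [if_neg hnull, ← hkT, if_neg hnull]
      rw [← hkT] at hiff
      by_cases hy : y ∈ s (T y k)
      · rw [if_pos hy, if_pos (hiff.mp hy)]
      · rw [if_neg hy, if_neg (fun h => hy (hiff.mpr h))]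
  refine ⟨fun v => {y | code y = v}, ?_, ?_⟩
  · intro v
    by_cases hv : ∃ y, code y = v
    · obtain ⟨y, hy⟩ := hv
      refine hN.mono _ _ ?_ (hix y)
      intro z hz
      have hyz : code y = code z := hy.trans (Eq.symm hz)
      rw [hcode y z hyz (ix y) le_rfl]
      exact hTmem z _
    · have : {y | code y = v} = ∅ := by
        ext y
        simp only [mem_ofPred_eq, mem_empty_iff_false, iff_false]
        exact fun h => hv ⟨y, h⟩
      show N {y | code y = v}
      rw [this]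
      exact hN.empty
  · ext y
    simp


/-- The ordinal `ω₁`. -/
noncomputable abbrev O1 : Ordinal.{0} := (Cardinal.aleph 1).ord

lemma iSup_lt_O1 {α : Type} [Countable α] {f : α → Ordinal.{0}} (h : ∀ i, f i < O1) :
    (⨆ i, f i) < O1 := by
  have h0 : O1 = Ordinal.omega 1 := by simp
  rw [h0] at h ⊢
  exact Ordinal.iSup_lt_omega_one h

lemma lt_iSup_le {α : Type} [Countable α] {f : α → Ordinal.{0}} (i : α) : f i ≤ ⨆ i, f i :=
  le_ciSup (Ordinal.bddAbove_of_small) i

/-- the ordinal represented by an element of `W` -/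
noncomputable def pos (i : W) : Ordinal.{0} := Ordinal.typein (α := W) (· < ·) i

lemma exists_pos {α : Ordinal.{0}} (h : α < O1) : ∃ i : W, pos i = α := by
  refine ⟨Ordinal.enum (α := W) (· < ·) ⟨α, by simpa using h⟩, ?_⟩
  exact Ordinal.typein_enum (α := W) (· < ·) _

/-- A rank function on the subsets of `Y` with countable values, behaving as the additive Borel class
of the unions of subfamilies. -/
structure RankSpace {Y : Type u} (rk : Set Y → Ordinal.{0}) : Prop where
  lt : ∀ T, rk T < O1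
  union : ∀ (f : ℕ → Set Y) (α : Ordinal.{0}), (∀ n, rk (f n) ≤ α) → rk (⋃ n, f n) ≤ α
  disj : ∀ f : W → Set Y, (∀ i j, i ≠ j → Disjoint (f i) (f j)) → ∃ α < O1, ∀ i, rk (f i) ≤ α

def Bdd {Y : Type u} (rk : Set Y → Ordinal.{0}) (T : Set Y) : Prop :=
  ∃ α < O1, ∀ T' ⊆ T, rk T' ≤ α

lemma RankSpace.union_two {Y : Type u} {rk : Set Y → Ordinal.{0}} (h : RankSpace rk)
    (A B : Set Y) (α : Ordinal.{0}) (hA : rk A ≤ α) (hB : rk B ≤ α) : rk (A ∪ B) ≤ α := by
  have : A ∪ B = ⋃ n : ℕ, (if n = 0 then A else B) := by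
    ext y
    simp only [mem_union, mem_iUnion]
    constructor
    · rintro (h | h)
      · exact ⟨0, by simpa using h⟩
      · exact ⟨1, by simpa using h⟩
    · rintro ⟨n, hn⟩
      split_ifs at hn
      · exact Or.inl hn
      · exact Or.inr hn
  rw [this]
  apply h.union
  intro n
  split_ifs
  · exact hA
  · exact hB

theorem RankSpace.satIdeal {Y : Type u} {rk : Set Y → Ordinal.{0}} (h : RankSpace rk) :
    SatIdeal (Bdd rk) := by
  refine ⟨?_, ?_, ?_, ?_, ?_⟩
  · refine ⟨rk ∅, h.lt _, ?_⟩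
    intro T' hT'
    rw [subset_empty_iff.mp hT']
  · rintro A B hAB ⟨α, hα, hB⟩
    exact ⟨α, hα, fun T' hT' => hB T' (hT'.trans hAB)⟩
  · intro f hf
    choose a ha hfa using hf
    refine ⟨⨆ n, a n, iSup_lt_O1 ha, ?_⟩
    intro T' hT'
    have : T' = ⋃ n, (T' ∩ f n) := by
      rw [← inter_iUnion, inter_eq_left.mpr hT']
    rw [this]
    apply h.union
    intro n
    exact (hfa n _ inter_subset_right).trans (lt_iSup_le n)
  · intro y
    refine ⟨max (rk ∅) (rk {y}), max_lt (h.lt _) (h.lt _), ?_⟩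
    intro T' hT'
    rcases subset_singleton_iff_eq.mp hT' with h1 | h1
    · rw [h1]; exact le_max_left _ _
    · rw [h1]; exact le_max_right _ _
  · intro D hD hpos
    by_contra hunc
    have h1 : Nonempty (W ↪ D) := by
      rw [← Cardinal.lift_mk_le', mk_ord_toType]
      have h2 : ℵ₀ < #D := by
        rw [← not_le, Cardinal.le_aleph0_iff_set_countable]
        exact hunc
      have h3 : Cardinal.aleph 1 ≤ #D := by
        rw [← Cardinal.succ_aleph0]
        exact Order.succ_le_of_lt h2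
      simpa using h3
    obtain ⟨e⟩ := h1
    have h2 : ∀ i : W, ∃ T' ⊆ (e i : Set Y), pos i < rk T' := by
      intro i
      by_contra hcon
      push Not at hcon
      apply hpos (e i) (e i).2
      refine ⟨pos i, ?_, hcon⟩
      have := Ordinal.typein_lt_type (α := W) (· < ·) i
      simpa [pos] using this
    choose T hT hrk using h2
    obtain ⟨α, hα, hle⟩ := h.disj T (by
      intro i j hij
      have h3 : (e i : Set Y) ≠ e j := fun h4 => hij (e.injective (Subtype.ext h4))
      exact (hD (e i).2 (e j).2 h3).mono (hT i) (hT j))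
    obtain ⟨i, hi⟩ := exists_pos hα
    have h5 := hrk i
    rw [hi] at h5
    exact absurd (hle i) (not_le.mpr h5)

theorem RankSpace.nonatomic {Y : Type u} {rk : Set Y → Ordinal.{0}} (h : RankSpace rk)
    (hc : ∀ f : W → Set Y, (∀ i, Bdd rk (f i)) → Bdd rk (⋃ i, f i)) (T : Set Y)
    (hT : ¬ Bdd rk T) : ∃ T' ⊆ T, ¬ Bdd rk T' ∧ ¬ Bdd rk (T \ T') := by
  have hI := h.satIdeal
  by_contra hcon
  push Not at hcon
  have hcl1 : ∃ a < O1, ∀ T' ⊆ T, Bdd rk T' → rk T' ≤ a := by
    by_contra h1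
    push Not at h1
    have h2 : ∀ i : W, ∃ T' ⊆ T, Bdd rk T' ∧ pos i < rk T' := by
      intro i
      apply h1
      have := Ordinal.typein_lt_type (α := W) (· < ·) i
      simpa [pos] using this
    choose R hRT hRb hRr using h2
    obtain ⟨a, ha, hle⟩ := hc R hRb
    obtain ⟨i, hi⟩ := exists_pos ha
    have h5 := hRr i
    rw [hi] at h5
    exact absurd (hle (R i) (subset_iUnion R i)) (not_le.mpr h5)
  obtain ⟨a, ha, ha'⟩ := hcl1
  have hcl2 : ∃ b < O1, ∀ T' ⊆ T, Bdd rk (T \ T') → rk T' ≤ b := by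
    by_contra h1
    push Not at h1
    have h2 : ∀ i : W, ∃ T' ⊆ T, Bdd rk (T \ T') ∧ pos i < rk T' := by
      intro i
      apply h1
      have := Ordinal.typein_lt_type (α := W) (· < ·) i
      simpa [pos] using this
    choose R hRT hRb hRr using h2
    have hN := hc (fun i => T \ R i) hRb
    obtain ⟨i, hi⟩ := exists_pos (max_lt (h.lt (T \ ⋃ i, T \ R i)) ha)
    have h5 := hRr i
    rw [hi] at h5
    refine absurd ?_ (not_le.mpr h5)
    have h6 : R i = (T \ ⋃ i, T \ R i) ∪ (R i ∩ ⋃ i, T \ R i) := by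
      ext x
      simp only [mem_union, mem_sdiff, mem_inter_iff]
      constructor
      · intro hx
        by_cases hxN : x ∈ ⋃ i, T \ R i
        · exact Or.inr ⟨hx, hxN⟩
        · exact Or.inl ⟨hRT i hx, hxN⟩
      · rintro (⟨hxT, hxN⟩ | ⟨hx, _⟩)
        · by_contra hxR
          exact hxN (mem_iUnion.mpr ⟨i, hxT, hxR⟩)
        · exact hx
    rw [h6]
    apply h.union_two
    · exact le_max_left _ _
    · refine (ha' _ (inter_subset_left.trans (hRT i)) ?_).trans (le_max_right _ _)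
      exact hI.mono _ _ inter_subset_right hN
  obtain ⟨b, hb, hb'⟩ := hcl2
  apply hT
  refine ⟨max a b, max_lt ha hb, ?_⟩
  intro T' hT'
  by_cases h1 : Bdd rk T'
  · exact (ha' T' hT' h1).trans (le_max_left _ _)
  · exact (hb' T' hT' (hcon T' hT' h1)).trans (le_max_right _ _)

/-- `κ` carries a proper `κ`-complete ideal containing the singletons such that every pairwise
disjoint family of sets outside the ideal is countable. -/
def QuasiMeasurable (κ : Cardinal.{u}) : Prop :=
  ∃ J : Set (Set κ.ord.ToType),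
    Set.univ ∉ J ∧
    (∀ i, {i} ∈ J) ∧
    (∀ A ∈ J, ∀ B ⊆ A, B ∈ J) ∧
    (∀ F ⊆ J, #F < κ → ⋃₀ F ∈ J) ∧
    (∀ D : Set (Set κ.ord.ToType), D.PairwiseDisjoint id → (∀ A ∈ D, A ∉ J) → D.Countable)

theorem RankSpace.main {Y : Type u} {rk : Set Y → Ordinal.{0}} (h : RankSpace rk)
    (hY : ¬ Bdd rk Set.univ) :
    ∃ κ : Cardinal.{u}, ℵ₀ < κ ∧ κ.IsRegular ∧ (∀ μ < κ, Order.succ μ < κ) ∧ κ ≤ #Y ∧
      κ ≤ 𝔠 ∧ QuasiMeasurable κ := by
  have hI := h.satIdeal
  obtain ⟨κ, hω, hreg, hlim, hle, hcomp, hmin, f, hf, hpos⟩ := additivity (Bdd rk) hI hY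
  have hal : Cardinal.aleph 1 < κ := by
    rw [← Cardinal.succ_aleph0]
    exact hlim _ hω
  have hc : ∀ f : W → Set Y, (∀ i, Bdd rk (f i)) → Bdd rk (⋃ i, f i) := by
    intro f hf
    have h1 := hcomp (ULift.{u} W) (fun i => f i.down) (by
      rw [Cardinal.mk_uLift, mk_ord_toType]
      simpa using hal) (fun i => hf _)
    convert h1 using 1
    exact (Equiv.ulift.surjective.iUnion_comp f).symm
  obtain ⟨g, hg, hgu⟩ := cover_continuum (Bdd rk) hI (h.nonatomic hc)
  have hcont : κ ≤ 𝔠 := by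
    have h1 := hmin (ULift.{u} (W × Set ℕ)) (fun i => g i.down) (fun i => hg _) (by
      have h2 : (⋃ i : ULift.{u} (W × Set ℕ), g i.down) = ⋃ i, g i :=
        Equiv.ulift.surjective.iUnion_comp g
      rw [h2, hgu]
      exact hY)
    refine h1.trans ?_
    rw [Cardinal.mk_uLift, Cardinal.mk_prod, mk_ord_toType, Cardinal.mk_set]
    simp only [Cardinal.lift_mul, Cardinal.lift_aleph, Cardinal.mk_nat,
      Cardinal.lift_id, Cardinal.two_power_aleph0, Cardinal.lift_continuum, Ordinal.lift_one]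
    refine Cardinal.mul_le_of_le Cardinal.aleph0_le_continuum ?_ le_rfl
    exact Cardinal.aleph_one_le_continuum
  refine ⟨κ, hω, hreg, hlim, hle, hcont, ?_⟩
  obtain ⟨J, hJ, hJu, hJc⟩ := push (Bdd rk) hI f hf hpos
  refine ⟨{A | J A}, hJu, hJ.sing, fun A hA B hB => hJ.mono B A hB hA, ?_, hJ.sat⟩
  intro F hF hFκ
  rw [sUnion_eq_iUnion]
  exact hJc F (fun g hg => hcomp F g hFκ hg) (fun A : F => (A : Set κ.ord.ToType)) (fun A => hF A.2)


section Topology

variable {X : Type u} [MetricSpace X] (S : Ordinal.{0} → Set (Set X))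

/-- `S α`, `1 ≤ α < ω₁`, are the additive Borel classes of the metric space `X`. -/
def IsBorelHierarchy : Prop :=
  S 1 = {U : Set X | IsOpen U} ∧
  ∀ α : Ordinal.{0}, 1 < α → α < (Cardinal.aleph 1).ord →
    S α = {A : Set X | ∃ f : ℕ → Set X, A = (⋃ n, f n) ∧
      ∀ n, ∃ β : Ordinal.{0}, 1 ≤ β ∧ β < α ∧ (f n)ᶜ ∈ S β}

variable {S}

lemma hier_mono (hS : IsBorelHierarchy S) {β α : Ordinal.{0}} (h1 : 1 ≤ β) (h2 : β ≤ α)
    (h3 : α < O1) : S β ⊆ S α := by
  rcases h2.eq_or_lt with h | h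
  · rw [h]
  · intro A hA
    rw [hS.2 α (h1.trans_lt h) h3]
    rcases h1.eq_or_lt with h4 | h4
    · rw [← h4, hS.1] at hA
      obtain ⟨F, hFc, _, hFu, _⟩ := IsOpen.exists_iUnion_isClosed hA
      refine ⟨F, hFu.symm, fun n => ⟨1, le_rfl, h4 ▸ h, ?_⟩⟩
      rw [hS.1]
      exact (hFc n).isOpen_compl
    · rw [hS.2 β h4 (h.trans h3)] at hA
      obtain ⟨f, hf, hf'⟩ := hA
      refine ⟨f, hf, fun n => ?_⟩
      obtain ⟨γ, h5, h6, h7⟩ := hf' n
      exact ⟨γ, h5, h6.trans h, h7⟩

lemma hier_union (hS : IsBorelHierarchy S) {α : Ordinal.{0}} (h1 : 1 ≤ α) (h3 : α < O1)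
    (f : ℕ → Set X) (hf : ∀ n, f n ∈ S α) : (⋃ n, f n) ∈ S α := by
  rcases h1.eq_or_lt with h4 | h4
  · rw [← h4, hS.1] at hf ⊢
    exact isOpen_iUnion hf
  · rw [hS.2 α h4 h3] at hf ⊢
    choose g hg hg' using hf
    refine ⟨fun n => g (Nat.unpair n).1 (Nat.unpair n).2, ?_, fun n => hg' _ _⟩
    ext x
    simp only [mem_iUnion]
    constructor
    · rintro ⟨n, hn⟩
      rw [hg n] at hn
      obtain ⟨k, hk⟩ := mem_iUnion.mp hn
      exact ⟨Nat.pair n k, by simpa using hk⟩
    · rintro ⟨n, hn⟩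
      refine ⟨(Nat.unpair n).1, ?_⟩
      rw [hg]
      exact mem_iUnion.mpr ⟨_, hn⟩

lemma hier_compl (hS : IsBorelHierarchy S) {α : Ordinal.{0}} (h1 : 1 ≤ α) (h3 : α + 1 < O1)
    (A : Set X) (hA : A ∈ S α) : Aᶜ ∈ S (α + 1) := by
  have h4 : α < α + 1 := by simp
  rw [hS.2 (α + 1) (h1.trans_lt h4) h3]
  exact ⟨fun _ => Aᶜ, (iUnion_const _).symm, fun _ => ⟨α, h1, h4, by simpa using hA⟩⟩

lemma O1_add_one {α : Ordinal.{0}} (h : α < O1) : α + 1 < O1 := by
  have : Order.IsSuccLimit O1 := Cardinal.isSuccLimit_ord (Cardinal.aleph0_le_aleph 1)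
  exact this.add_one_lt h

lemma one_lt_O1 : (1 : Ordinal.{0}) < O1 := by
  have : Order.IsSuccLimit O1 := Cardinal.isSuccLimit_ord (Cardinal.aleph0_le_aleph 1)
  have h0 : (0 : Ordinal.{0}) < O1 := by
    rw [pos_iff_ne_zero]
    intro h
    rw [h] at this
    exact this.ne_bot rfl
  simpa using this.add_one_lt h0

lemma hier_borel (hS : IsBorelHierarchy S) (A : Set X) (hA : @MeasurableSet X (borel X) A) :
    ∃ α : Ordinal.{0}, 1 ≤ α ∧ α < O1 ∧ A ∈ S α := by
  refine MeasurableSpace.generateFrom_induction {s : Set X | IsOpen s}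
    (fun A _ => ∃ α : Ordinal.{0}, 1 ≤ α ∧ α < O1 ∧ A ∈ S α) ?_ ?_ ?_ ?_ A hA
  · intro t ht _
    exact ⟨1, le_rfl, one_lt_O1, by rw [hS.1]; exact ht⟩
  · exact ⟨1, le_rfl, one_lt_O1, by rw [hS.1]; exact isOpen_empty⟩
  · rintro t _ ⟨α, h1, h2, h3⟩
    exact ⟨α + 1, h1.trans (by simp), O1_add_one h2,
      hier_compl hS h1 (O1_add_one h2) t h3⟩
  · intro f _ hf
    choose a h1 h2 h3 using hf
    have h4 : (⨆ n, a n) < O1 := iSup_lt_O1 h2
    have h5 : 1 ≤ ⨆ n, a n := (h1 0).trans (lt_iSup_le 0)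
    exact ⟨⨆ n, a n, h5, h4, hier_union hS h5 h4 f
      (fun n => hier_mono hS (h1 n) (lt_iSup_le n) h4 (h3 n))⟩

/-- The least additive class containing a set. -/
noncomputable def cls (S : Ordinal.{0} → Set (Set X)) (A : Set X) : Ordinal.{0} :=
  sInf {α | 1 ≤ α ∧ A ∈ S α}

lemma cls_spec (hS : IsBorelHierarchy S) (A : Set X) (hA : @MeasurableSet X (borel X) A) :
    1 ≤ cls S A ∧ cls S A < O1 ∧ A ∈ S (cls S A) := by
  obtain ⟨α, h1, h2, h3⟩ := hier_borel hS A hA
  have hne : {α | 1 ≤ α ∧ A ∈ S α}.Nonempty := ⟨α, h1, h3⟩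
  have hm := csInf_mem hne
  exact ⟨hm.1, (csInf_le' ⟨h1, h3⟩ : cls S A ≤ α).trans_lt h2, hm.2⟩

lemma cls_le_iff (hS : IsBorelHierarchy S) (A : Set X) (hA : @MeasurableSet X (borel X) A)
    (α : Ordinal.{0}) (h1 : 1 ≤ α) (h2 : α < O1) : cls S A ≤ α ↔ A ∈ S α := by
  constructor
  · intro h
    have h3 := cls_spec hS A hA
    exact hier_mono hS h3.1 h h2 h3.2.2
  · intro h
    exact csInf_le' ⟨h1, h⟩

variable {𝒳 : Set (Set X)}

/-- union of a subfamily -/
def un (T : Set 𝒳) : Set X := ⋃ A ∈ T, (A : Set X)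

theorem rankSpace (hS : IsBorelHierarchy S)
    (hfin : ∀ x : X, {A : Set X | A ∈ 𝒳 ∧ x ∈ A}.Finite)
    (hB : ∀ T : Set 𝒳, @MeasurableSet X (borel X) (un T)) :
    RankSpace (fun T : Set 𝒳 => cls S (un T)) := by
  refine ⟨fun T => (cls_spec hS _ (hB T)).2.1, ?_, ?_⟩
  · intro f α hf
    have h1 : 1 ≤ α := ((cls_spec hS _ (hB (f 0))).1).trans (hf 0)
    rcases lt_or_ge α O1 with h2 | h2
    · rw [cls_le_iff hS _ (hB _) α h1 h2]
      have h3 : un (⋃ n, f n) = ⋃ n, un (f n) := by
        unfold un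
        rw [biUnion_iUnion]
      rw [h3]
      apply hier_union hS h1 h2
      intro n
      exact (cls_le_iff hS _ (hB _) α h1 h2).mp (hf n)
    · exact ((cls_spec hS _ (hB _)).2.1).le.trans h2
  · intro f hf
    obtain ⟨r, hr⟩ : ∃ r : W → (ℕ → Bool), Function.Injective r := by
      have h1 : Nonempty (W ↪ (ℕ → Bool)) := by
        rw [← Cardinal.le_def, mk_ord_toType]
        simpa using Cardinal.aleph_one_le_continuum
      exact ⟨h1.some, h1.some.injective⟩
    -- coarse pieces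
    let P : (List Bool) → Set 𝒳 := fun σ => ⋃ j ∈ {j : W | ∀ n (hn : n < σ.length), r j n = σ[n]}, f j
    have hsup : (⨆ σ, cls S (un (P σ))) < O1 := iSup_lt_O1 fun σ => (cls_spec hS _ (hB _)).2.1
    let b : Ordinal.{0} := ⨆ σ, cls S (un (P σ))
    have hb1 : 1 ≤ b := (cls_spec hS _ (hB (P []))).1.trans (lt_iSup_le (f := fun σ => cls S (un (P σ))) [])
    have hPb : ∀ σ, un (P σ) ∈ S b := by
      intro σ
      rw [← cls_le_iff hS _ (hB _) b hb1 hsup]
      exact lt_iSup_le (f := fun σ => cls S (un (P σ))) σ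
    refine ⟨b + 1 + 1, O1_add_one (O1_add_one hsup), ?_⟩
    intro i
    have h1b : 1 ≤ b + 1 := hb1.trans (by simp)
    have h1bb : 1 ≤ b + 1 + 1 := h1b.trans (by simp)
    rw [cls_le_iff hS _ (hB _) _ h1bb (O1_add_one (O1_add_one hsup))]
    let τ : ℕ → List Bool := fun k => List.ofFn (fun n : Fin k => r i n)
    have hτ : ∀ k j, (∀ n (hn : n < (τ k).length), r j n = (τ k)[n]) ↔ ∀ n < k, r j n = r i n := by
      intro k j
      simp [τ]
    have key : un (f i) = ⋂ k : ℕ, un (P (τ k)) := by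
      apply Subset.antisymm
      · intro x hx
        rw [mem_iInter]
        intro k
        simp only [un, mem_iUnion] at hx ⊢
        obtain ⟨A, hA, hxA⟩ := hx
        refine ⟨A, ?_, hxA⟩
        simp only [P, mem_iUnion]
        exact ⟨i, (hτ k i).mpr (fun n _ => rfl), hA⟩
      · intro x hx
        rw [mem_iInter] at hx
        have h2 : ∀ k : ℕ, ∃ A : 𝒳, x ∈ (A : Set X) ∧ ∃ j, (∀ n < k, r j n = r i n) ∧ A ∈ f j := by
          intro k
          have h3 := hx k
          simp only [un, mem_iUnion] at h3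
          obtain ⟨A, hA, hxA⟩ := h3
          simp only [P, mem_iUnion] at hA
          obtain ⟨j, hj, hAj⟩ := hA
          exact ⟨A, hxA, j, (hτ k j).mp hj, hAj⟩
        choose A hxA j hj hAj using h2
        have hfinite : {A : 𝒳 | x ∈ (A : Set X)}.Finite := by
          have h4 := (hfin x).preimage (f := (Subtype.val : 𝒳 → Set X)) Subtype.val_injective.injOn
          refine h4.subset ?_
          intro A hA
          exact ⟨A.2, hA⟩
        obtain ⟨B, hB1, hB2⟩ : ∃ B : 𝒳, x ∈ (B : Set X) ∧ {k | A k = B}.Infinite := by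
          by_contra hcon
          push Not at hcon
          have h5 : (Set.univ : Set ℕ) ⊆ ⋃ B ∈ {A : 𝒳 | x ∈ (A : Set X)}, {k | A k = B} := by
            intro k _
            simp only [mem_iUnion]
            exact ⟨A k, hxA k, rfl⟩
          have h6 : (⋃ B ∈ {A : 𝒳 | x ∈ (A : Set X)}, {k | A k = B}).Finite := by
            apply hfinite.biUnion
            intro B hB
            exact hcon B hB
          exact Set.infinite_univ (h6.subset h5)
        obtain ⟨k₀, hk₀⟩ := hB2.nonempty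
        have hjk : ∀ k ∈ {k | A k = B}, j k = j k₀ := by
          intro k hk
          by_contra hne
          have h7 := hf _ _ hne
          have h8 : B ∈ f (j k) := by
            have := hAj k
            rwa [show A k = B from hk] at this
          have h9 : B ∈ f (j k₀) := by
            have := hAj k₀
            rwa [show A k₀ = B from hk₀] at this
          exact Set.disjoint_left.mp h7 h8 h9
        have hji : j k₀ = i := by
          apply hr
          funext n
          obtain ⟨k, hk, hnk⟩ := hB2.exists_gt n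
          rw [← hjk k hk]
          exact hj k n hnk
        simp only [un, mem_iUnion]
        refine ⟨B, ?_, hB1⟩
        have := hAj k₀
        rwa [show A k₀ = B from hk₀, hji] at this
    have hcompl : (un (f i))ᶜ ∈ S (b + 1) := by
      rw [key, compl_iInter]
      apply hier_union hS h1b (O1_add_one hsup)
      intro k
      exact hier_compl hS hb1 (O1_add_one hsup) _ (hPb _)
    have := hier_compl hS h1b (O1_add_one (O1_add_one hsup)) _ hcompl
    rwa [compl_compl] at this

end Topology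

/-- Let `𝒳` be a point-finite Borel-additive family in a metric space. Either all unions of
subfamilies lie in one additive Borel class `Σ⁰_α` with `α < ω₁`, or some weakly inaccessible
cardinal `κ ≤ min (#𝒳) 𝔠` carries a proper `κ`-complete ideal containing the singletons all of
whose disjoint families of positive sets are countable. -/
theorem result (X : Type u) [MetricSpace X] (𝒳 : Set (Set X))
    (hfin : ∀ x : X, {A : Set X | A ∈ 𝒳 ∧ x ∈ A}.Finite)
    (hB : ∀ 𝒴 ⊆ 𝒳, @MeasurableSet X (borel X) (⋃₀ 𝒴))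
    (S : Ordinal.{0} → Set (Set X))
    (hS1 : S 1 = {U : Set X | IsOpen U})
    (hS : ∀ α : Ordinal.{0}, 1 < α → α < (Cardinal.aleph 1).ord →
      S α = {A : Set X | ∃ f : ℕ → Set X, A = (⋃ n, f n) ∧
        ∀ n, ∃ β : Ordinal.{0}, 1 ≤ β ∧ β < α ∧ (f n)ᶜ ∈ S β}) :
    (∃ α : Ordinal.{0}, 1 ≤ α ∧ α < (Cardinal.aleph 1).ord ∧ ∀ 𝒴 ⊆ 𝒳, ⋃₀ 𝒴 ∈ S α) ∨
    (∃ κ : Cardinal.{u}, ℵ₀ < κ ∧ κ.IsRegular ∧ (∀ μ < κ, Order.succ μ < κ) ∧
      κ ≤ #𝒳 ∧ κ ≤ 𝔠 ∧ QuasiMeasurable κ) := by
  have hH : IsBorelHierarchy S := ⟨hS1, hS⟩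
  have hun : ∀ T : Set 𝒳, un T = ⋃₀ (Subtype.val '' T) := by
    intro T
    rw [sUnion_image]
    rfl
  have hB' : ∀ T : Set 𝒳, @MeasurableSet X (borel X) (un T) := by
    intro T
    rw [hun]
    exact hB _ (by rintro _ ⟨A, _, rfl⟩; exact A.2)
  have hR := rankSpace hH hfin hB'
  by_cases hb : Bdd (fun T : Set 𝒳 => cls S (un T)) Set.univ
  · left
    obtain ⟨α, hα, hle⟩ := hb
    have h1 : 1 ≤ α := (cls_spec hH _ (hB' ∅)).1.trans (hle ∅ (subset_univ _))
    refine ⟨α, h1, hα, ?_⟩
    intro 𝒴 h𝒴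
    have h2 : ⋃₀ 𝒴 = un (Subtype.val ⁻¹' 𝒴 : Set 𝒳) := by
      rw [hun, Subtype.image_preimage_coe, inter_eq_right.mpr h𝒴]
    rw [h2, ← cls_le_iff hH _ (hB' _) α h1 hα]
    exact hle _ (subset_univ _)
  · right
    exact hR.main hb

end Pool.Agent.Results.MP_b624cf_lc.BoundedOrQuasiMeasurable
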